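import Pool.Agent.L7h88.MW.Stm

set_option autoImplicit false

/-! Project MW (helper88), part GEN (helper2): windows, almost every `α`. Adapted from `Pool/Agent/N798/W/Fin.lean`. -/

namespace Pool.Agent.L7h2.MW

open Finset MeasureTheory Filter Topology
open scoped ENNReal
open Pool.Agent.N798.T
open Pool.Agent.N798.HS (Fp Mp Thin S_PRD S_EX Fp_meas Mp_meas Fp_le mu_ae thin_mono)
open Pool.Agent.L7h88.MW (S_SW S_GEN Win cntG mainG)

lemma oneG (h : S_SW) (u : ℕ → ℕ → ℕ) (M R : ℕ → ℕ) (W : ℕ → Finset ℕ) (C n0 : ℕ)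
    (hw : ∀ n, n0 ≤ n → (W n).Nonempty → n ≤ M n ∧ √(M n : ℝ) ≤ R n * Real.log n ^ C ∧ R n ≤ M n ∧
      Set.InjOn (u n) (W n) ∧ ∀ j ∈ W n, u n j ∈ Ioc (M n) (M n + R n)) (b : ℤ) (s : ℝ) (K : ℕ) :
    ∃ (D : ℝ) (N0 : ℕ), 0 ≤ D ∧ 2 ≤ N0 ∧ ∀ n : ℕ, N0 ≤ n → ∀ w : ℕ → ℂ, (∀ m, ‖w m‖ ≤ 1) →
      ∫⁻ x in Set.Icc (0 : ℝ) 1, ‖∑ j ∈ W n, w j * (Fp b s x (u n j) - Mp s x (u n j))‖ₑ ^ 2 ≤
        ENNReal.ofReal (D * R n ^ 2 / (Real.log n) ^ K) := by
  classical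
  obtain ⟨D, N0, hD, hN0, h1⟩ := h b s K C
  refine ⟨D, max N0 n0, hD, hN0.trans (le_max_left _ _), fun n hn w hwn => ?_⟩
  have hnN : N0 ≤ n := (le_max_left _ _).trans hn
  have hnn : n0 ≤ n := (le_max_right _ _).trans hn
  have hn2 : 2 ≤ n := hN0.trans hnN
  rcases (W n).eq_empty_or_nonempty with h0 | h0
  · rw [h0]
    simp
  obtain ⟨a1, a2, a3, a4, a5⟩ := hw n hnn h0
  have hn2' : (2 : ℝ) ≤ n := by exact_mod_cast hn2
  have hlog : 0 < Real.log (n : ℝ) := Real.log_pos (by linarith)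
  have hnM : (n : ℝ) ≤ M n := by exact_mod_cast a1
  have hlM : Real.log (n : ℝ) ≤ Real.log (M n : ℝ) := Real.log_le_log (by linarith) hnM
  have h2 := h1 (M n) (R n) (hnN.trans a1) (a2.trans (by gcongr)) a3
    (fun v => if v ∈ (W n).image (u n) then w (Function.invFunOn (u n) (W n) v) else 0) (fun v => by
      split_ifs
      · exact hwn _
      · rw [norm_zero]; exact zero_le_one)
  have hsub : (W n).image (u n) ⊆ Ioc (M n) (M n + R n) := by
    intro v hv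
    obtain ⟨j, hj, rfl⟩ := mem_image.1 hv
    exact a5 j hj
  refine (le_trans (le_of_eq ?_) h2).trans (ENNReal.ofReal_le_ofReal ?_)
  · refine lintegral_congr fun x => ?_
    congr 2
    rw [← Finset.sum_subset hsub]
    · rw [Finset.sum_image a4]
      refine Finset.sum_congr rfl fun j hj => ?_
      simp only [if_pos (mem_image_of_mem (u n) hj)]
      rw [a4.leftInvOn_invFunOn (Finset.mem_coe.2 hj)]
    · intro j _ hj
      simp only [if_neg hj, zero_mul]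
  · have : 0 ≤ D * (R n : ℝ) ^ 2 := by positivity
    gcongr

/-- the deviation, in the coordinates of the cube -/
noncomputable def Gw {k : ℕ} (u : Fin k → ℕ → ℕ → ℕ) (W : ℕ → Finset ℕ) (b : Fin k → ℤ) (s : ℕ → ℝ) (ω : Fin k → ℝ)
    (n : ℕ) : ℂ :=
  ∑ j ∈ W n, (∏ i, Fp (b i) (s i) (ω i) (u i n j) - ∏ i : Fin k, Mp (s i) (ω i) (u i n j))

lemma Gw_meas {k : ℕ} (u : Fin k → ℕ → ℕ → ℕ) (W : ℕ → Finset ℕ) (b : Fin k → ℤ) (s : ℕ → ℝ) (n : ℕ) :
    Measurable fun ω => Gw u W b s ω n := by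
  unfold Gw
  refine Finset.measurable_fun_sum _ fun j _ => Measurable.sub ?_ ?_
  · exact Finset.measurable_fun_prod _ fun i _ => (Fp_meas _ _ _).comp (measurable_pi_apply i)
  · exact Finset.measurable_fun_prod _ fun i _ => (Mp_meas _ _).comp (measurable_pi_apply i)

lemma Mp_le1 (s : ℝ) : ∃ n1 : ℕ, ∀ n, n1 ≤ n → ∀ m, n ≤ m → ∀ x ∈ Set.Icc (0:ℝ) 1, ‖Mp s x m‖ ≤ 1 := by
  refine ⟨⌈Real.exp (1 - s)⌉₊, fun n hn m hm x hx => ?_⟩
  have h2 : Real.exp (1 - s) ≤ m := (Nat.le_ceil _).trans (by exact_mod_cast hn.trans hm)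
  have h4 : Real.exp 1 ≤ Real.exp (s + x) * m := by
    calc Real.exp 1 = Real.exp s * Real.exp (1 - s) := by rw [← Real.exp_add]; congr 1; ring
      _ ≤ Real.exp (s + x) * m := mul_le_mul (Real.exp_le_exp.2 (by linarith [hx.1])) h2
          (Real.exp_pos _).le (Real.exp_pos _).le
  have h5 : 1 ≤ Real.log (Real.exp (s + x) * m) := by
    rw [Real.le_log_iff_exp_le (lt_of_lt_of_le (Real.exp_pos _) h4)]
    exact h4
  unfold Mp
  rw [Complex.norm_real, Real.norm_eq_abs, abs_of_nonneg (by positivity)]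
  rw [div_le_one (by linarith)]
  exact h5

lemma meanSqG (hsw : S_SW) (hprd : S_PRD) {k : ℕ} (u : Fin k → ℕ → ℕ → ℕ) (M R : ℕ → ℕ) (W : ℕ → Finset ℕ) (C : ℕ)
    (hW : Win u M R W C) (b : Fin k → ℤ) (s : ℕ → ℝ) : ∀ K : ℕ, ∃ (D : ℝ) (N0 : ℕ), 0 ≤ D ∧ 2 ≤ N0 ∧ ∀ n : ℕ, N0 ≤ n →
      ∫⁻ ω, ‖((n : ℝ) / R n : ℂ) * Gw u W b s ω n‖ₑ ^ 2 ∂(mu k) ≤ ENNReal.ofReal (D * n ^ 2 / (Real.log n) ^ K) := by
  intro K
  obtain ⟨n0, hw⟩ := hW
  choose D N0 hD hN0 h1 using fun i : Fin k => oneG hsw (u i) M R W C n0 (fun n hn hne => by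
    obtain ⟨c1, c2, c3, c4, c5⟩ := hw n hn hne
    exact ⟨c1, c3, c4, (c5 i).1, (c5 i).2⟩) (b i) (s i) K
  choose n1 hn1 using fun i : Fin k => Mp_le1 (s i)
  have hDt : 0 ≤ ∑ i, D i := Finset.sum_nonneg fun i _ => hD i
  refine ⟨(k : ℝ) ^ 2 * ∑ i, D i, 2 + n0 + ∑ i, (N0 i + n1 i), by positivity, by omega, fun n hn => ?_⟩
  have hNi : ∀ i, N0 i + n1 i ≤ n := fun i =>
    (Finset.single_le_sum (f := fun i => N0 i + n1 i) (fun _ _ => Nat.zero_le _) (Finset.mem_univ i)).trans (by omega)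
  have hn2 : 2 ≤ n := by omega
  have hn2' : (2 : ℝ) ≤ n := by exact_mod_cast hn2
  have hlog : 0 < Real.log (n : ℝ) := Real.log_pos (by linarith)
  rcases (W n).eq_empty_or_nonempty with h0 | h0
  · simp [Gw, h0]
  obtain ⟨c1, c2, c3, c4, c5⟩ := hw n (by omega) h0
  have hRpos : (0 : ℝ) < R n := by
    by_contra hR
    push Not at hR
    have hR0 : (R n : ℝ) = 0 := le_antisymm hR (Nat.cast_nonneg _)
    rw [hR0, zero_mul] at c3
    have h3 : (0 : ℝ) < M n := by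
      have : (n : ℝ) ≤ M n := by exact_mod_cast c1
      linarith
    have := Real.sqrt_pos.2 h3
    linarith
  have h2 := hprd k (W n) (fun i x j => Fp (b i) (s i) x (u i n j))
    (fun i x j => Mp (s i) x (u i n j)) (fun i j => Fp_meas _ _ _) (fun i j => Mp_meas _ _)
    (fun i x _ j _ => Fp_le _ _ _ _) (fun i x hx j hj => hn1 i n ((Nat.le_add_left _ _).trans (hNi i)) _
      (by
        have := Finset.mem_Ioc.1 ((c5 i).2 j hj)
        omega) x hx) (ENNReal.ofReal ((∑ i, D i) * R n ^ 2 / (Real.log n) ^ K)) (by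
    intro i w hw
    refine (h1 i n ((Nat.le_add_right _ _).trans (hNi i)) w hw).trans (ENNReal.ofReal_le_ofReal ?_)
    refine div_le_div_of_nonneg_right (mul_le_mul_of_nonneg_right ?_ (by positivity)) (by positivity)
    exact Finset.single_le_sum (fun i _ => hD i) (Finset.mem_univ i))
  have e1 : ∀ ω : Fin k → ℝ, ‖((n : ℝ) / R n : ℂ) * Gw u W b s ω n‖ₑ ^ 2 =
      ENNReal.ofReal (((n : ℝ) / R n) ^ 2) * ‖Gw u W b s ω n‖ₑ ^ 2 := by
    intro ω
    rw [enorm_mul, mul_pow]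
    congr 1
    have e2 : ((n : ℝ) / R n : ℂ) = (((n : ℝ) / R n : ℝ) : ℂ) := by push_cast; rfl
    rw [e2, ← ofReal_norm, Complex.norm_real, Real.norm_eq_abs, abs_of_nonneg (by positivity),
      ← ENNReal.ofReal_pow (by positivity)]
  simp only [e1]
  rw [lintegral_const_mul _ ((Gw_meas u W b s n).enorm.pow_const 2)]
  refine (mul_le_mul_right h2 _).trans (le_of_eq ?_)
  rw [show ((k : ℝ≥0∞)) ^ 2 = ENNReal.ofReal ((k : ℝ) ^ 2) by
    rw [ENNReal.ofReal_pow (Nat.cast_nonneg _), ENNReal.ofReal_natCast], ← ENNReal.ofReal_mul (by positivity),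
    ← ENNReal.ofReal_mul (by positivity)]
  congr 1
  field_simp

/-- the deviation in terms of `α` -/
noncomputable def Ga {k : ℕ} (u : Fin k → ℕ → ℕ → ℕ) (W : ℕ → Finset ℕ) (b : Fin k → ℤ) (α : Fin k → ℝ) (n : ℕ) : ℂ :=
  ∑ j ∈ W n, ((∏ i, if (⌊α i * (u i n j : ℝ)⌋ + b i).toNat.Prime then (1 : ℂ) else 0) -
    ∏ i, ((1 / Real.log (α i * u i n j) : ℝ) : ℂ))

lemma ae_Ga (hsw : S_SW) (hprd : S_PRD) (hex : S_EX) {k : ℕ} (u : Fin k → ℕ → ℕ → ℕ) (M R : ℕ → ℕ) (W : ℕ → Finset ℕ) (C : ℕ)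
    (hW : Win u M R W C) (b : Fin k → ℤ) :
    ∀ᵐ α ∂((volume : Measure (Fin k → ℝ)).restrict {α | ∀ i, 0 < α i}), ∀ L : ℕ,
      Thin fun n => (n : ℝ) / (Real.log n) ^ L < ‖((n : ℝ) / R n : ℂ) * Ga u W b α n‖ := by
  classical
  refine Pool.Agent.N262.T.cu k _ fun s => ?_
  have h1 := hex (Fin k → ℝ) (mu k) (fun ω n => ((n : ℝ) / R n : ℂ) * Gw u W b s ω n)
    (fun n => (Gw_meas u W b s n).const_mul _) (meanSqG hsw hprd u M R W C hW b s)
  filter_upwards [h1, mu_ae k] with ω hω hω1 L K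
  have h2 := hω L K
  have e1 : ∀ i : Fin k, al s k ω i = Real.exp (s i + ω i) := by
    intro i
    unfold al
    rw [dif_pos i.2, clamp_id (hω1 i)]
  have e2 : ∀ n, Ga u W b (fun j : Fin k => al s k ω j) n = Gw u W b s ω n := by
    intro n
    unfold Ga Gw Fp Mp vl
    simp only [e1]
  simp only [e2]
  exact h2

lemma Ga_eq {k : ℕ} (u : Fin k → ℕ → ℕ → ℕ) (W : ℕ → Finset ℕ) (b : Fin k → ℤ) (α : Fin k → ℝ) (n : ℕ) :
    Ga u W b α n = (((cntG u W b α n : ℝ) - mainG u W α n : ℝ) : ℂ) := by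
  classical
  unfold Ga mainG cntG
  rw [Finset.sum_sub_distrib, ← Finset.sum_boole]
  push_cast
  congr 1
  refine Finset.sum_congr rfl fun j _ => ?_
  by_cases h : ∀ i, (⌊α i * (u i n j : ℝ)⌋ + b i).toNat.Prime
  · rw [if_pos h, Finset.prod_eq_one fun i _ => if_pos (h i)]
    simp
  · rw [if_neg h]
    push Not at h
    obtain ⟨i, hi⟩ := h
    rw [Finset.prod_eq_zero (Finset.mem_univ i) (if_neg hi)]
    simp

theorem s_GEN (hsw : S_SW) (hprd : S_PRD) (hex : S_EX) : S_GEN := by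
  classical
  intro k u M R W C hW
  have hm : MeasurableSet {α : Fin k → ℝ | ∀ i, 0 < α i} := by
    rw [Set.ofPred_forall]
    exact MeasurableSet.iInter fun i => measurableSet_lt measurable_const (measurable_pi_apply i)
  have h1 := ae_all_iff.2 fun b : Fin k → ℤ => ae_Ga hsw hprd hex u M R W C hW b
  rw [ae_restrict_iff' hm] at h1
  filter_upwards [h1] with α hα hpos b L
  have h2 := hα hpos b L
  obtain ⟨n0, hw⟩ := hW
  refine thin_mono ?_ h2
  filter_upwards [eventually_ge_atTop n0, eventually_ge_atTop 2] with n hn hn2 h3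
  have hn2' : (2 : ℝ) ≤ n := by exact_mod_cast hn2
  have hlog : 0 < Real.log (n : ℝ) := Real.log_pos (by linarith)
  rcases (W n).eq_empty_or_nonempty with h0 | h0
  · exfalso
    have e1 : (cntG u W b α n : ℝ) - mainG u W α n = 0 := by
      unfold cntG mainG
      rw [h0]
      simp
    rw [e1, abs_zero] at h3
    have : 0 ≤ (R n : ℝ) / Real.log n ^ L := by positivity
    linarith
  obtain ⟨c1, c2, c3, c4, c5⟩ := hw n hn h0
  have hRpos : (0 : ℝ) < R n := by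
    by_contra hR
    push Not at hR
    have hR0 : (R n : ℝ) = 0 := le_antisymm hR (Nat.cast_nonneg _)
    rw [hR0, zero_mul] at c3
    have h3 : (0 : ℝ) < M n := by
      have : (n : ℝ) ≤ M n := by exact_mod_cast c1
      linarith
    have := Real.sqrt_pos.2 h3
    linarith
  have e2 : ((n : ℝ) / R n : ℂ) = (((n : ℝ) / R n : ℝ) : ℂ) := by push_cast; rfl
  rw [norm_mul, Ga_eq, e2, Complex.norm_real, Complex.norm_real, Real.norm_eq_abs, Real.norm_eq_abs,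
    abs_of_nonneg (by positivity : 0 ≤ (n : ℝ) / R n)]
  calc (n : ℝ) / Real.log n ^ L = n / R n * (R n / Real.log n ^ L) := by field_simp
    _ < n / R n * |(cntG u W b α n : ℝ) - mainG u W α n| := by
        apply mul_lt_mul_of_pos_left h3
        positivity

end Pool.Agent.L7h2.MW
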