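import Pool.Agent.L7h88.MW.Stm

set_option autoImplicit false

/-! Project MW (helper88), part SW (helper2): one factor, windows. Compare `Pool/Agent/N164/HS/SC.lean`. -/

namespace Pool.Agent.L7h2.MW

open Finset MeasureTheory Filter Topology
open scoped ENNReal
open Pool.Agent.H376R2.MR (er)
open Pool.Agent.N798.T (vl vl_meas)
open Pool.Agent.N798.HS (Fp Mp)
open Pool.Agent.L7h88.MW (S_PL3 S_FTL S_FTT S_SW hw)

lemma er_norm (τ x : ℝ) : ‖er τ x‖ = 1 := by
  unfold er
  exact Complex.norm_exp_ofReal_mul_I _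

lemma hw_meas (b : ℤ) : Measurable (hw b) := by
  unfold hw
  have h1 : Measurable fun q : ℕ => (if q.Prime then (1:ℂ) else 0) := measurable_of_countable _
  refine Measurable.sub (h1.comp ((vl_meas b).comp Real.measurable_exp)) ?_
  exact Complex.measurable_ofReal.comp (Measurable.const_div measurable_id 1)

lemma hw_le (b : ℤ) {y : ℝ} (hy : 1 ≤ y) : ‖hw b y‖ ≤ 2 := by
  unfold hw
  refine (norm_sub_le _ _).trans ?_
  have h1 : ‖(if (vl b (Real.exp y)).Prime then (1:ℂ) else 0)‖ ≤ 1 := by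
    split_ifs <;> simp
  have h2 : ‖((1 / y : ℝ) : ℂ)‖ ≤ 1 := by
    rw [Complex.norm_real, Real.norm_of_nonneg (by positivity), div_le_one (by positivity)]
    exact hy
  linarith

lemma er_cont (y : ℝ) : Continuous fun η : ℝ => er (-η) y := by
  unfold er
  fun_prop

lemma er_cont' (η : ℝ) : Continuous fun y : ℝ => er (-η) y := by
  unfold er
  fun_prop

lemma FT_cont (b : ℤ) {y1 y2 : ℝ} (h1 : 1 ≤ y1) (h : y1 ≤ y2) :
    Continuous fun η : ℝ => ∫ y in y1..y2, hw b y * er (-η) y := by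
  refine intervalIntegral.continuous_of_dominated_interval (bound := fun _ => 2) ?_ ?_ ?_ ?_
  · intro η
    exact ((hw_meas b).mul (er_cont' η).measurable).aestronglyMeasurable
  · intro η
    refine ae_of_all _ fun y hy => ?_
    rw [Set.uIoc_of_le h] at hy
    rw [norm_mul, er_norm, mul_one]
    exact hw_le b (by linarith [hy.1])
  · exact intervalIntegrable_const
  · refine ae_of_all _ fun y _ => ?_
    exact continuous_const.mul (er_cont y)

lemma lint (b : ℤ) {y1 y2 x L B : ℝ} (h1 : 1 ≤ y1) (h : y1 ≤ y2) (hL : 0 ≤ L)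
    (hB : ∫ η in x..(x + L), ‖∫ y in y1..y2, hw b y * er (-η) y‖ ^ 2 ≤ B) :
    ∫⁻ η in Set.Icc x (x + L), ‖∫ y in y1..y2, hw b y * er (-η) y‖ₑ ^ 2 ≤ ENNReal.ofReal B := by
  have hc : Continuous fun η : ℝ => ‖∫ y in y1..y2, hw b y * er (-η) y‖ ^ 2 := (FT_cont b h1 h).norm.pow 2
  have e1 : ∀ η : ℝ, ‖∫ y in y1..y2, hw b y * er (-η) y‖ₑ ^ 2 =
      ENNReal.ofReal (‖∫ y in y1..y2, hw b y * er (-η) y‖ ^ 2) := by
    intro η
    rw [ENNReal.ofReal_pow (norm_nonneg _), ofReal_norm]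
  simp only [e1]
  rw [← ofReal_integral_eq_lintegral_ofReal (hc.integrableOn_Icc) (ae_of_all _ fun η => by positivity)]
  apply ENNReal.ofReal_le_ofReal
  rw [integral_Icc_eq_integral_Ioc, ← intervalIntegral.integral_of_le (by linarith)]
  exact hB

theorem s_SW (hPL : S_PL3) (hFTL : S_FTL) (hFTT : S_FTT) : S_SW := by
  intro b s A C
  obtain ⟨C1, hC1, hpl⟩ := hPL
  obtain ⟨D', Y0, hD', hY0, hftl⟩ := hFTL b (2 * A + 1) (A + C + 2)
  obtain ⟨C2, hC2, hftt⟩ := hFTT b
  set b1 : ℝ := 5 * D' * 2 ^ (2 * A + 1) with hb1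
  set b2 : ℝ := 8 * C2 * (Real.exp s * (1 + Real.exp s)) with hb2
  have hb1n : 0 ≤ b1 := by positivity
  have hb2n : 0 ≤ b2 := by positivity
  set K0 : ℝ := 2 + 2 * |s| + Y0 + 2 ^ (A + C + 2) * Real.exp (-(s / 2)) + 2 ^ (A + C + 3) * Real.exp (-s) with hK0
  obtain ⟨N0, hN0, hev⟩ : ∃ N0 : ℕ, 2 ≤ N0 ∧ ∀ N : ℕ, N0 ≤ N → K0 ≤ Real.log N ∧ (Real.log N) ^ (2 * C) ≤ N := by
    have hlog : Tendsto (fun N : ℕ => Real.log (N : ℝ)) atTop atTop :=
      Real.tendsto_log_atTop.comp tendsto_natCast_atTop_atTop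
    have e1 : ∀ᶠ N : ℕ in atTop, K0 ≤ Real.log (N : ℝ) := hlog.eventually_ge_atTop _
    have e2 : ∀ᶠ N : ℕ in atTop, (Real.log (N : ℝ)) ^ (2 * C) ≤ N := by
      have h := (Real.isLittleO_pow_log_id_atTop (n := 2 * C)).bound one_pos
      have h' := tendsto_natCast_atTop_atTop (R := ℝ) |>.eventually h
      filter_upwards [h'] with N hN
      simp only [one_mul, id] at hN
      have h2 : ‖(N : ℝ)‖ = N := by rw [Real.norm_eq_abs, abs_of_nonneg (Nat.cast_nonneg N)]
      rw [h2] at hN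
      exact (Real.le_norm_self _).trans hN
    obtain ⟨N1, hN1⟩ := eventually_atTop.1 (e1.and e2)
    exact ⟨max N1 2, le_max_right _ _, fun N hN => hN1 N ((le_max_left _ _).trans hN)⟩
  refine ⟨C1 * (b1 + b2), N0, by positivity, hN0, fun N R hN hR hRN g hg => ?_⟩
  obtain ⟨hl0, hlC2⟩ := hev N hN
  have hN2 : (2 : ℝ) ≤ N := by exact_mod_cast hN0.trans hN
  have hNpos : (0 : ℝ) < N := by linarith
  set l := Real.log (N : ℝ) with hl
  have hs0 := abs_nonneg s
  have hs1 := neg_abs_le s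
  have p1 : 0 < (2 : ℝ) ^ (A + C + 2) * Real.exp (-(s / 2)) := by positivity
  have p2 : 0 < (2 : ℝ) ^ (A + C + 3) * Real.exp (-s) := by positivity
  have hl2 : 2 ≤ l := by linarith
  have hl1 : 1 ≤ l := by linarith
  have hlpos : 0 < l := by linarith
  have hY1 : 1 ≤ s + l := by linarith
  have hYh : l / 2 ≤ s + l := by linarith
  have hYY0 : Y0 ≤ s + l := by linarith
  have hq1 : 2 ^ (A + C + 2) * Real.exp (-(s / 2)) ≤ l := by linarith
  have hq2 : 2 ^ (A + C + 3) * Real.exp (-s) ≤ l := by linarith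
  set Y := s + l with hY
  have hYpos : 0 < Y := by linarith
  have hlog2 : 0 ≤ Real.log 2 := Real.log_nonneg (by norm_num)
  have hlog2' : Real.log 2 ≤ 1 := by linarith [Real.log_two_lt_d9]
  set y2 := Y + (1 + Real.log 2) with hy2
  have hYy2 : Y ≤ y2 := by linarith
  have hexpY : Real.exp Y = Real.exp s * N := by rw [hY, Real.exp_add, hl, Real.exp_log hNpos]
  have hexpY2 : Real.exp (Y / 2) = Real.exp (s / 2) * √(N : ℝ) := by
    have e1 : √(N : ℝ) = Real.exp (l / 2) := by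
      rw [Real.sqrt_eq_rpow, Real.rpow_def_of_pos hNpos, ← hl]
      congr 1
      ring
    rw [e1, ← Real.exp_add]
    congr 1
    rw [hY]; ring
  -- the parameters
  set T : ℝ := N * l ^ (A + 1) with hT
  have hlA : l ≤ l ^ (A + 1) := le_self_pow₀ hl1 (by omega)
  have hTN : 2 * (N : ℝ) ≤ T := by
    rw [hT]
    nlinarith
  have hT0 : 0 < T := by linarith
  have hsq : √(N : ℝ) * √(N : ℝ) = N := Real.mul_self_sqrt hNpos.le
  have hsqpos : 0 < √(N : ℝ) := Real.sqrt_pos.2 hNpos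
  have hRpos : (0 : ℝ) < R := by
    by_contra h
    push Not at h
    have h1 : (R : ℝ) = 0 := le_antisymm h (Nat.cast_nonneg _)
    rw [h1, zero_mul] at hR
    linarith
  have hRN' : (R : ℝ) ≤ N := by exact_mod_cast hRN
  set δ : ℝ := (R : ℝ) / N with hδ
  have hδ0 : 0 < δ := by positivity
  have hδ1 : δ ≤ 1 := by rw [hδ, div_le_one hNpos]; exact hRN'
  have hδi : 1 / δ = N / R := by rw [hδ, one_div_div]
  have hLδ : 1 / δ ≤ √(N : ℝ) * l ^ C := by
    rw [hδi, div_le_iff₀ hRpos]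
    calc (N : ℝ) = √(N : ℝ) * √(N : ℝ) := hsq.symm
      _ ≤ √(N : ℝ) * (R * l ^ C) := by gcongr
      _ = √(N : ℝ) * l ^ C * R := by ring
  have hlC : l ^ C ≤ √(N : ℝ) := by
    apply Real.le_sqrt_of_sq_le
    rw [← pow_mul, mul_comm C 2]
    exact hlC2
  have hLN : 1 / δ ≤ N := by
    refine hLδ.trans ?_
    calc √(N : ℝ) * l ^ C ≤ √(N : ℝ) * √(N : ℝ) := by gcongr
      _ = N := hsq
  have hL0 : 0 ≤ 1 / δ := by positivity
  have hYp : ∀ E : ℕ, l ^ E / 2 ^ E ≤ Y ^ E := by
    intro E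
    rw [← div_pow]
    exact pow_le_pow_left₀ (by positivity) hYh E
  set B : ℝ := b1 * T ^ 2 / l ^ (2 * A + 1) + b2 * N ^ 2 with hB
  have hB0 : 0 ≤ B := by positivity
  -- the Fourier transform
  have hfour : ∀ x : ℝ, ∫⁻ η in Set.Icc x (x + 1 / δ), ‖∫ y in Y..y2, hw b y * er (-η) y‖ₑ ^ 2 ≤
      ENNReal.ofReal (B / (T ^ 2 + x ^ 2)) := by
    intro x
    rcases le_or_gt |x| (2 * T) with hx | hx
    · have hLe : 1 / δ ≤ Real.exp (Y / 2) * Y ^ (A + C + 2) := by
        refine hLδ.trans ?_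
        have h1 := hYp (A + C + 2)
        have h2 : l ^ C ≤ Real.exp (s / 2) * (l ^ (A + C + 2) / 2 ^ (A + C + 2)) := by
          have h3 : l ^ (A + C + 2) = l ^ C * l ^ (A + 1) * l := by rw [← pow_add, ← pow_succ]; congr 1; ring
          have h4 : 1 ≤ l ^ (A + 1) := one_le_pow₀ hl1
          have h5 : Real.exp (-(s / 2)) * Real.exp (s / 2) = 1 := by rw [← Real.exp_add]; simp
          have h6 : (2 : ℝ) ^ (A + C + 2) ≤ Real.exp (s / 2) * l := by
            calc (2 : ℝ) ^ (A + C + 2) = Real.exp (s / 2) * (2 ^ (A + C + 2) * Real.exp (-(s / 2))) := by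
                  rw [mul_comm (Real.exp (s / 2)), mul_assoc, h5, mul_one]
              _ ≤ Real.exp (s / 2) * l := by gcongr
          rw [mul_div_assoc', le_div_iff₀ (by positivity), h3]
          calc l ^ C * 2 ^ (A + C + 2) ≤ l ^ C * (Real.exp (s / 2) * l) := by gcongr
            _ = Real.exp (s / 2) * (l ^ C * 1 * l) := by ring
            _ ≤ Real.exp (s / 2) * (l ^ C * l ^ (A + 1) * l) := by gcongr
        rw [hexpY2]
        calc √(N : ℝ) * l ^ C ≤ √(N : ℝ) * (Real.exp (s / 2) * (l ^ (A + C + 2) / 2 ^ (A + C + 2))) := by gcongr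
          _ ≤ √(N : ℝ) * (Real.exp (s / 2) * Y ^ (A + C + 2)) := by gcongr
          _ = _ := by ring
      have hxe : |x| ≤ Real.exp Y * Y ^ (A + C + 2) := by
        refine hx.trans ?_
        have h1 := hYp (A + C + 2)
        have h2 : 2 * l ^ (A + 1) ≤ Real.exp s * (l ^ (A + C + 2) / 2 ^ (A + C + 2)) := by
          have h3 : l ^ (A + C + 2) = l ^ (A + 1) * l ^ C * l := by rw [← pow_add, ← pow_succ]; congr 1; ring
          have h4 : 1 ≤ l ^ C := one_le_pow₀ hl1
          have h5 : Real.exp (-s) * Real.exp s = 1 := by rw [← Real.exp_add]; simp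
          have h6 : 2 * (2 : ℝ) ^ (A + C + 2) ≤ Real.exp s * l := by
            calc 2 * (2 : ℝ) ^ (A + C + 2) = 2 ^ (A + C + 3) * (Real.exp (-s) * Real.exp s) := by
                  rw [h5, show A + C + 3 = A + C + 2 + 1 by ring, pow_succ]; ring
              _ = Real.exp s * (2 ^ (A + C + 3) * Real.exp (-s)) := by ring
              _ ≤ Real.exp s * l := by gcongr
          rw [mul_div_assoc', le_div_iff₀ (by positivity), h3]
          calc 2 * l ^ (A + 1) * 2 ^ (A + C + 2) = l ^ (A + 1) * (2 * 2 ^ (A + C + 2)) := by ring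
            _ ≤ l ^ (A + 1) * (Real.exp s * l) := by gcongr
            _ = Real.exp s * (l ^ (A + 1) * 1 * l) := by ring
            _ ≤ Real.exp s * (l ^ (A + 1) * l ^ C * l) := by gcongr
        rw [hexpY]
        calc 2 * T = N * (2 * l ^ (A + 1)) := by rw [hT]; ring
          _ ≤ N * (Real.exp s * (l ^ (A + C + 2) / 2 ^ (A + C + 2))) := by gcongr
          _ ≤ N * (Real.exp s * Y ^ (A + C + 2)) := by gcongr
          _ = _ := by ring
      refine (lint b hY1 hYy2 hL0 (hftl Y Y y2 x (1 / δ) hYY0 le_rfl hYy2 (by linarith) hL0 hLe hxe)).trans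
        (ENNReal.ofReal_le_ofReal ?_)
      have h1 := hYp (2 * A + 1)
      have h2 : D' / Y ^ (2 * A + 1) ≤ D' / (l ^ (2 * A + 1) / 2 ^ (2 * A + 1)) := by
        apply div_le_div_of_nonneg_left hD' (by positivity) h1
      refine h2.trans ?_
      rw [div_div_eq_mul_div, le_div_iff₀ (by positivity)]
      have h3 : T ^ 2 + x ^ 2 ≤ 5 * T ^ 2 := by
        have : x ^ 2 ≤ (2 * T) ^ 2 := by
          rw [← sq_abs x]
          exact pow_le_pow_left₀ (abs_nonneg _) hx 2
        nlinarith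
      calc D' * 2 ^ (2 * A + 1) / l ^ (2 * A + 1) * (T ^ 2 + x ^ 2)
          ≤ D' * 2 ^ (2 * A + 1) / l ^ (2 * A + 1) * (5 * T ^ 2) := by gcongr
        _ = b1 * T ^ 2 / l ^ (2 * A + 1) := by rw [hb1]; ring
        _ ≤ B := by
            rw [hB]
            have : 0 ≤ b2 * (N : ℝ) ^ 2 := by positivity
            linarith
    · have hxp : 0 < |x| := by linarith
      have hfar : ∀ η ∈ Set.Icc x (x + 1 / δ), |x| / 2 ≤ |η| := by
        intro η hη
        have h1 : |η - x| ≤ 1 / δ := by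
          rw [abs_of_nonneg (by linarith [hη.1])]
          linarith [hη.2]
        have h2 : |x| - |η| ≤ |η - x| := by
          have := abs_sub_abs_le_abs_sub x η
          rw [abs_sub_comm] at this
          exact this
        linarith
      refine (lint b hY1 hYy2 hL0 (hftt Y Y y2 x (1 / δ) (|x| / 2) hY1 le_rfl hYy2 (by linarith) hL0 (by positivity)
        hfar)).trans (ENNReal.ofReal_le_ofReal ?_)
      have hx2 : 0 < x ^ 2 := by rw [← sq_abs]; positivity
      have e1 : (|x| / 2) ^ 2 = x ^ 2 / 4 := by rw [div_pow, sq_abs]; norm_num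
      rw [e1, div_div_eq_mul_div, div_le_div_iff₀ hx2 (by positivity)]
      have h3 : T ^ 2 + x ^ 2 ≤ 2 * x ^ 2 := by
        have : T ^ 2 ≤ |x| ^ 2 := pow_le_pow_left₀ hT0.le (by linarith) 2
        rw [sq_abs] at this
        linarith
      have h4 : C2 * (1 / δ + Real.exp Y) * Real.exp Y ≤ C2 * (Real.exp s * (1 + Real.exp s)) * N ^ 2 := by
        rw [hexpY]
        calc C2 * (1 / δ + Real.exp s * N) * (Real.exp s * N) ≤ C2 * (N + Real.exp s * N) * (Real.exp s * N) := by
              gcongr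
          _ = _ := by ring
      calc C2 * (1 / δ + Real.exp Y) * Real.exp Y * 4 * (T ^ 2 + x ^ 2)
          ≤ C2 * (Real.exp s * (1 + Real.exp s)) * N ^ 2 * 4 * (2 * x ^ 2) := by gcongr
        _ = b2 * N ^ 2 * x ^ 2 := by rw [hb2]; ring
        _ ≤ B * x ^ 2 := by
            have : 0 ≤ b1 * T ^ 2 / l ^ (2 * A + 1) := by positivity
            have h5 : b2 * (N : ℝ) ^ 2 ≤ B := by rw [hB]; linarith
            gcongr
  -- the function
  set H : ℝ → ℂ := (Set.Icc Y y2).indicator (hw b) with hH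
  have hint : ∀ η : ℝ, ∫ y, H y * er (-η) y = ∫ y in Y..y2, hw b y * er (-η) y := by
    intro η
    rw [intervalIntegral.integral_of_le hYy2, ← integral_Icc_eq_integral_Ioc,
      ← integral_indicator measurableSet_Icc]
    congr 1
    funext y
    simp only [hH, Set.indicator]
    split_ifs
    · rfl
    · rw [zero_mul]
  have h7 := hpl (Ioc N (N + R)) N δ (by linarith) hδ0 hδ1 (by
      intro n hn
      obtain ⟨h1, h2⟩ := Finset.mem_Ioc.1 hn
      have h1' : (N : ℝ) ≤ n := by exact_mod_cast h1.le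
      have h2' : (n : ℝ) ≤ N + R := by exact_mod_cast h2
      refine ⟨h1', h2'.trans (le_of_eq ?_)⟩
      rw [hδ]
      field_simp) g hg H ((hw_meas b).indicator measurableSet_Icc) (by
      intro y
      simp only [hH, Set.indicator]
      split_ifs with hy
      · exact hw_le b (hY1.trans hy.1)
      · rw [norm_zero]; norm_num) Y (1 + Real.log 2) (by linarith) (by
      intro y hy
      simp only [hH, Set.indicator]
      rw [if_neg hy]) T B hTN (by linarith) hB0 (by
      intro x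
      simp only [hint]
      exact hfour x) s
  have hleft : ∫⁻ x in Set.Icc (0 : ℝ) 1, ‖∑ n ∈ Ioc N (N + R), g n * (Fp b s x n - Mp s x n)‖ₑ ^ 2 ≤
      ∫⁻ x, ‖∑ n ∈ Ioc N (N + R), g n * H (x + (s + Real.log n))‖ₑ ^ 2 := by
    refine le_trans (le_of_eq ?_) (setLIntegral_le_lintegral (Set.Icc (0 : ℝ) 1) _)
    refine setLIntegral_congr_fun measurableSet_Icc fun x hx => ?_
    congr 2
    refine Finset.sum_congr rfl fun n hn => ?_
    obtain ⟨h1, h2⟩ := Finset.mem_Ioc.1 hn
    have h1' : (N : ℝ) ≤ n := by exact_mod_cast h1.le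
    have h2' : (n : ℝ) ≤ 2 * N := by
      have : n ≤ 2 * N := by omega
      exact_mod_cast this
    have hn0 : (0 : ℝ) < n := by linarith
    have hln1 : l ≤ Real.log n := Real.log_le_log hNpos h1'
    have hln2 : Real.log n ≤ Real.log 2 + l := by
      have := Real.log_le_log hn0 h2'
      rwa [Real.log_mul (by norm_num) (by linarith)] at this
    have hin : x + (s + Real.log n) ∈ Set.Icc Y y2 := by
      constructor
      · rw [hY]; linarith [hx.1]
      · rw [hy2, hY]; linarith [hx.2]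
    have hexp : Real.exp (x + (s + Real.log n)) = Real.exp (s + x) * n := by
      rw [show x + (s + Real.log (n : ℝ)) = (s + x) + Real.log n by ring, Real.exp_add,
        Real.exp_log hn0]
    have hlog : Real.log (Real.exp (s + x) * n) = x + (s + Real.log n) := by
      rw [← hexp, Real.log_exp]
    rw [hH, Set.indicator_of_mem hin]
    unfold hw Fp Mp
    rw [hlog, hexp]
  refine hleft.trans (h7.trans (ENNReal.ofReal_le_ofReal ?_))
  rw [Nat.card_Ioc, show N + R - N = R by omega, hδ, hB, div_le_div_iff₀ hT0 (by positivity)]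
  have e3 : l ^ (2 * A + 1) = l ^ A * l ^ (A + 1) := by rw [← pow_add]; congr 1; ring
  have hlA0 : 0 < l ^ A := by positivity
  have hlA1 : 0 < l ^ (A + 1) := by positivity
  have h8 : (b1 * T ^ 2 / l ^ (2 * A + 1) + b2 * (N : ℝ) ^ 2) * l ^ A ≤ (b1 + b2) * N * T := by
    have e4 : b1 * T ^ 2 / l ^ (2 * A + 1) * l ^ A = b1 * N * T := by
      rw [e3, hT]
      field_simp
    have e5 : b2 * (N : ℝ) ^ 2 * l ^ A ≤ b2 * N * T := by
      have : l ^ A ≤ l ^ (A + 1) := pow_le_pow_right₀ hl1 (by omega)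
      calc b2 * (N : ℝ) ^ 2 * l ^ A ≤ b2 * (N : ℝ) ^ 2 * l ^ (A + 1) := by gcongr
        _ = b2 * N * T := by rw [hT]; ring
    rw [add_mul, e4]
    linarith
  calc C1 * ((R : ℝ) / N) * (b1 * T ^ 2 / l ^ (2 * A + 1) + b2 * (N : ℝ) ^ 2) * R * l ^ A
      = C1 * (R : ℝ) ^ 2 / N * ((b1 * T ^ 2 / l ^ (2 * A + 1) + b2 * (N : ℝ) ^ 2) * l ^ A) := by ring
    _ ≤ C1 * (R : ℝ) ^ 2 / N * ((b1 + b2) * N * T) := by gcongr
    _ = C1 * (b1 + b2) * R ^ 2 * T := by field_simp

end Pool.Agent.L7h2.MW
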